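import Mathlib

/-!
# The `⊆`-safe fragment of Tarski's relation algebra is finitely generated

An `n`-ary operation on binary relations assigns a binary relation on `A` to each domain `A` with
`n` binary relations on it.  `TRA` is the algebra with the operations `id`, `∅`, complement,
intersection, composition and converse.  An operation is `⊆`-safe if it is preserved when one passes
from an induced substructure to the larger structure.

The universal relation `⊤`, relative complement `R ∖ S`, composition, converse and identity are
`⊆`-safe, and `⊤ ∖ R` is the complement of `R`, `R ∖ (R ∖ S)` is `R ∩ S`, and `⊤ ∖ ⊤` is `∅`.  So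
every operation of `TRA`, `⊆`-safe or not, is given by a term over these five `⊆`-safe operations.
This holds over arbitrary structures (first question) and over finite structures (second question);
in fact over every class `C` of domains.

On the other hand the `⊆`-safe operations are not closed under substitution, and no set of
operations, finite or infinite, has exactly the `⊆`-safe `TRA`-definable operations as its term
definable operations.
-/

set_option autoImplicit false

universe u

namespace Pool.Agent.Results.MP_3f6cab_lc.SafeFragment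

/-- An operation on binary relations: to each domain `A` with `arity` binary relations on it, a
binary relation on `A`. -/
structure Op : Type (u + 1) where
  /-- the number of arguments -/
  arity : ℕ
  /-- the value on the structure with domain `A` and relations `R 0, R 1, …` -/
  val : ∀ A : Type u, (Fin arity → A → A → Prop) → A → A → Prop

/-- Terms in the relation symbols `R 0, …, R (n - 1)` with operations from the set `O`. -/
inductive Term (O : Set Op.{u}) (n : ℕ) : Type (u + 1)
  | rel : Fin n → Term O n
  | app : ∀ o : Op.{u}, o ∈ O → (Fin o.arity → Term O n) → Term O n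

/-- The value of a term in the structure with domain `A` and relations `R`. -/
def Term.eval {O : Set Op.{u}} {n : ℕ} {A : Type u} (R : Fin n → A → A → Prop) :
    Term O n → A → A → Prop
  | .rel i => R i
  | .app o _ t => o.val A fun i => (t i).eval R

/-- The operation `o` is term definable in `BRA(O)`, over the structures whose domain is in the
class `C`. -/
def Definable (C : Type u → Prop) (O : Set Op.{u}) (o : Op.{u}) : Prop :=
  ∃ t : Term O o.arity, ∀ A : Type u, C A → ∀ R : Fin o.arity → A → A → Prop,
    t.eval R = o.val A R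

/-- The identity relation. -/
def opId : Op.{u} := ⟨0, fun _ _ x y => x = y⟩

/-- The empty relation. -/
def opEmpty : Op.{u} := ⟨0, fun _ _ _ _ => False⟩

/-- Complement. -/
def opCompl : Op.{u} := ⟨1, fun _ R x y => ¬ R 0 x y⟩

/-- Intersection. -/
def opInter : Op.{u} := ⟨2, fun _ R x y => R 0 x y ∧ R 1 x y⟩

/-- Composition. -/
def opComp : Op.{u} := ⟨2, fun _ R x y => ∃ z, R 0 x z ∧ R 1 z y⟩

/-- Converse. -/
def opConv : Op.{u} := ⟨1, fun _ R x y => R 0 y x⟩

/-- The operations of Tarski's relation algebra. -/
def TRA : Set Op.{u} := {opId, opEmpty, opCompl, opInter, opComp, opConv}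

/-- The operation `o` is `⊆`-safe over the structures whose domain is in the class `C`: if the
structure `(A, R)` is (by `i`) an induced substructure of `(B, S)` and `(a, b) ∈ o(A)` then
`(a, b) ∈ o(B)`. -/
def Safe (C : Type u → Prop) (o : Op.{u}) : Prop :=
  ∀ (A B : Type u), C A → C B → ∀ (i : A ↪ B) (R : Fin o.arity → A → A → Prop)
    (S : Fin o.arity → B → B → Prop), (∀ k x y, R k x y ↔ S k (i x) (i y)) →
      ∀ a b : A, o.val A R a b → o.val B S (i a) (i b)

/-- The set `𝒮` of the `⊆`-safe operations which are term definable in `TRA`, over the structures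
whose domain is in the class `C`. -/
def SafeTRA (C : Type u → Prop) : Set Op.{u} := {o | Safe C o ∧ Definable C TRA o}

/-- `BRA(O)` is finitely generated over the structures whose domain is in `C`: for a finite subset
`O'` of `O` every operation of `O` is term definable in `BRA(O')`. -/
def FinitelyGenerated (C : Type u → Prop) (O : Set Op.{u}) : Prop :=
  ∃ O' : Set Op.{u}, O' ⊆ O ∧ O'.Finite ∧ ∀ o ∈ O, Definable C O' o

/-- The universal relation. -/
def opTop : Op.{u} := ⟨0, fun _ _ _ _ => True⟩

/-- Relative complement. -/
def opDiff : Op.{u} := ⟨2, fun _ R x y => R 0 x y ∧ ¬ R 1 x y⟩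

/-- The five generators. -/
def gens : Set Op.{u} := {opId, opTop, opDiff, opComp, opConv}

/-- Substituting terms of `BRA(O')` for the operations in the terms of `BRA(O)`. -/
theorem definable_trans {C : Type u → Prop} {O O' : Set Op.{u}}
    (h : ∀ o ∈ O, Definable C O' o) {n : ℕ} (t : Term O n) :
    ∃ t' : Term O' n, ∀ A : Type u, C A → ∀ R : Fin n → A → A → Prop, t'.eval R = t.eval R := by
  have subst : ∀ {m : ℕ} (s : Term O' m) (f : Fin m → Term O' n), ∃ s' : Term O' n,
      ∀ (A : Type u) (R : Fin n → A → A → Prop), s'.eval R = s.eval fun i => (f i).eval R := by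
    intro m s f
    induction s with
    | rel i => exact ⟨f i, fun A R => rfl⟩
    | app o ho t ih =>
      choose g hg using ih
      refine ⟨.app o ho g, fun A R => ?_⟩
      simp only [Term.eval]
      congr 1
      funext i
      exact hg i A R
  induction t with
  | rel i => exact ⟨.rel i, fun A _ R => rfl⟩
  | app o ho t ih =>
    choose g hg using ih
    obtain ⟨s, hs⟩ := h o ho
    obtain ⟨s', hs'⟩ := subst s g
    refine ⟨s', fun A hA R => ?_⟩
    rw [hs' A R, hs A hA]
    simp only [Term.eval]
    congr 1
    funext i
    exact hg i A hA R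

theorem tra_of_gens (C : Type u → Prop) : ∀ o ∈ TRA.{u}, Definable C gens o := by
  have hT : opTop.{u} ∈ gens := by simp [gens]
  have hD : opDiff.{u} ∈ gens := by simp [gens]
  rintro o (rfl | rfl | rfl | rfl | rfl | rfl)
  · exact ⟨.app opId (by simp [gens]) (fun i => i.elim0), fun A _ R => rfl⟩
  · refine ⟨.app opDiff hD ![.app opTop hT (fun i => i.elim0), .app opTop hT (fun i => i.elim0)],
      fun A _ R => ?_⟩
    funext x y
    simp [Term.eval, opDiff, opTop, opEmpty]
  · refine ⟨.app opDiff hD ![.app opTop hT (fun i => i.elim0), .rel (0 : Fin 1)],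
      fun A _ R => ?_⟩
    funext x y
    simp [Term.eval, opDiff, opTop, opCompl]
  · refine ⟨.app opDiff hD ![.rel (0 : Fin 2), .app opDiff hD ![.rel (0 : Fin 2),
      .rel (1 : Fin 2)]], fun A _ R => ?_⟩
    funext x y
    simp [Term.eval, opDiff, opInter]
    tauto
  · refine ⟨.app opComp (by simp [gens]) ![.rel (0 : Fin 2), .rel (1 : Fin 2)],
      fun A _ R => ?_⟩
    funext x y
    simp [Term.eval, opComp]
  · refine ⟨.app opConv (by simp [gens]) ![.rel (0 : Fin 1)], fun A _ R => ?_⟩
    funext x y
    simp [Term.eval, opConv]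

theorem gens_of_tra (C : Type u → Prop) : ∀ o ∈ gens.{u}, Definable C TRA o := by
  have hE : opEmpty.{u} ∈ TRA := by simp [TRA]
  have hC : opCompl.{u} ∈ TRA := by simp [TRA]
  have hI : opInter.{u} ∈ TRA := by simp [TRA]
  rintro o (rfl | rfl | rfl | rfl | rfl)
  · exact ⟨.app opId (by simp [TRA]) (fun i => i.elim0), fun A _ R => rfl⟩
  · refine ⟨.app opCompl hC ![.app opEmpty hE (fun i => i.elim0)], fun A _ R => ?_⟩
    funext x y
    simp [Term.eval, opCompl, opTop, opEmpty]
  · refine ⟨.app opInter hI ![.rel (0 : Fin 2), .app opCompl hC ![.rel (1 : Fin 2)]],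
      fun A _ R => ?_⟩
    funext x y
    simp [Term.eval, opDiff, opCompl, opInter]
  · refine ⟨.app opComp (by simp [TRA]) ![.rel (0 : Fin 2), .rel (1 : Fin 2)],
      fun A _ R => ?_⟩
    funext x y
    simp [Term.eval, opComp]
  · refine ⟨.app opConv (by simp [TRA]) ![.rel (0 : Fin 1)], fun A _ R => ?_⟩
    funext x y
    simp [Term.eval, opConv]

theorem gens_safe (C : Type u → Prop) : ∀ o ∈ gens.{u}, Safe C o := by
  rintro o (rfl | rfl | rfl | rfl | rfl)
  · intro A B _ _ i R S _ a b h
    exact congrArg i h
  · intro A B _ _ i R S _ a b h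
    trivial
  · intro A B _ _ i R S hRS a b h
    exact ⟨(hRS _ _ _).1 h.1, fun h' => h.2 ((hRS _ _ _).2 h')⟩
  · intro A B _ _ i R S hRS a b h
    obtain ⟨z, h1, h2⟩ := h
    exact ⟨i z, (hRS _ _ _).1 h1, (hRS _ _ _).1 h2⟩
  · intro A B _ _ i R S hRS a b h
    exact (hRS _ _ _).1 h

/-- The complement of the composition, a `TRA`-definable operation which is not `⊆`-safe. -/
def opNotComp : Op.{u} := ⟨2, fun _ R x y => ¬ ∃ z, R 0 x z ∧ R 1 z y⟩

theorem not_safe_notComp {C : Type u → Prop} (hC : ∀ A, Finite A → C A) :
    ¬ Safe C opNotComp.{u} := by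
  intro h
  have h1 := h (ULift.{u} Unit) (ULift.{u} Bool) (hC _ inferInstance) (hC _ inferInstance)
    ⟨fun _ => ⟨true⟩, fun _ _ _ => Subsingleton.elim _ _⟩ (fun _ _ _ => False)
    (fun _ x y => x ≠ y) (fun k x y => ⟨fun hf => hf.elim, fun hne => hne rfl⟩) ⟨()⟩ ⟨()⟩
    (by rintro ⟨z, hz, -⟩; exact hz)
  apply h1
  refine ⟨⟨false⟩, ?_, ?_⟩
  · change ¬ ((⟨true⟩ : ULift.{u} Bool) = ⟨false⟩)
    simp
  · change ¬ ((⟨false⟩ : ULift.{u} Bool) = ⟨true⟩)
    simp

/-- **The `⊆`-safe fragment of Tarski's relation algebra is finitely generated.** Let `C` be any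
class of domains (all sets; the finite sets).

(1) The five operations identity, universal relation, relative complement, composition and
converse are `⊆`-safe and `TRA`-definable, and they generate all `TRA`-definable operations. In
particular the `⊆`-safe fragment is finitely generated.

(2) If `C` contains the finite sets then there is no set of operations whatsoever whose term
definable operations are exactly the `⊆`-safe `TRA`-definable ones. -/
theorem result (C : Type u → Prop) :
    (FinitelyGenerated C (SafeTRA C) ∧
      gens ⊆ SafeTRA C ∧ ∀ o, Definable C TRA o ↔ Definable C gens o) ∧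
    ((∀ A, Finite A → C A) → ¬ ∃ O : Set Op.{u}, ∀ o, o ∈ SafeTRA C ↔ Definable C O o) := by
  have h1 : gens ⊆ SafeTRA C := fun o ho => ⟨gens_safe C o ho, gens_of_tra C o ho⟩
  have h2 : ∀ o, Definable C TRA o ↔ Definable C gens o := by
    intro o
    constructor
    · rintro ⟨t, ht⟩
      obtain ⟨t', ht'⟩ := definable_trans (tra_of_gens C) t
      exact ⟨t', fun A hA R => (ht' A hA R).trans (ht A hA R)⟩
    · rintro ⟨t, ht⟩
      obtain ⟨t', ht'⟩ := definable_trans (gens_of_tra C) t
      exact ⟨t', fun A hA R => (ht' A hA R).trans (ht A hA R)⟩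
  refine ⟨⟨⟨gens, h1, by simp [gens], fun o ho => (h2 o).1 ho.2⟩, h1, h2⟩, ?_⟩
  rintro hC ⟨O, hO⟩
  -- the complement of a composition would be `⊆`-safe
  have h3 : ∀ o ∈ gens, Definable C O o := fun o ho => (hO o).1 (h1 ho)
  have h4 : Definable C gens opNotComp.{u} := by
    have hT : opTop.{u} ∈ gens := by simp [gens]
    have hD : opDiff.{u} ∈ gens := by simp [gens]
    refine ⟨.app opDiff hD ![.app opTop hT (fun i => i.elim0),
      .app opComp (by simp [gens]) ![.rel (0 : Fin 2), .rel (1 : Fin 2)]], fun A _ R => ?_⟩
    funext x y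
    simp [Term.eval, opDiff, opTop, opComp, opNotComp]
  obtain ⟨t, ht⟩ := h4
  obtain ⟨t', ht'⟩ := definable_trans h3 t
  exact not_safe_notComp hC ((hO _).2 ⟨t', fun A hA R => (ht' A hA R).trans (ht A hA R)⟩).1

end Pool.Agent.Results.MP_3f6cab_lc.SafeFragment
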